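import Mathlib

/-!
Alternating sums and sign changes of polynomials.
-/

namespace Pool.Agent.W_MP_be22fd_co

lemma alt_sum_pos (k : ℕ) : ∀ v : ℕ → ℝ, (∀ r, r + 1 < 2 * k + 1 → v (r + 1) < v r) →
    0 < v (2 * k) → 0 < ∑ r ∈ Finset.range (2 * k + 1), (-1 : ℝ) ^ r * v r := by
  induction k with
  | zero =>
    intro v _ h
    simpa using h
  | succ k ih =>
    intro v hv h
    have h1 := ih (fun r => v (r + 2)) (fun r hr => hv (r + 2) (by omega)) (by
      show 0 < v (2 * k + 2)
      exact h)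
    have e : 2 * (k + 1) + 1 = (2 * k + 1 + 1) + 1 := by ring
    rw [e, Finset.sum_range_succ', Finset.sum_range_succ']
    have e2 : ∀ r, (-1 : ℝ) ^ (r + 1 + 1) * v (r + 1 + 1) = (-1 : ℝ) ^ r * v (r + 2) := by
      intro r
      rw [pow_succ, pow_succ]
      ring
    simp only [e2]
    have := hv 0 (by omega)
    simp only [zero_add, pow_one, pow_zero] at *
    linarith

lemma alt_sum_pos' (m : ℕ) (hm : Odd m) (v : ℕ → ℝ) (hv : ∀ r, r + 1 < m → v (r + 1) < v r)
    (h : 0 < v (m - 1)) : 0 < ∑ r ∈ Finset.range m, (-1 : ℝ) ^ r * v r := by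
  obtain ⟨k, rfl⟩ := hm
  exact alt_sum_pos k v hv (by simpa using h)

lemma reindex (m t : ℕ) (hm : Odd m) (ht : t ≤ m) (W : ℕ → ℝ) :
    (-1 : ℝ) ^ t * ∑ a ∈ Finset.range m, (-1 : ℝ) ^ a * W a =
      ∑ r ∈ Finset.range m, (-1 : ℝ) ^ r * (if t + r < m then W (t + r) else - W (t + r - m)) := by
  obtain ⟨n, rfl⟩ : ∃ n, m = t + n := ⟨m - t, by omega⟩
  have hsq : ((-1 : ℝ) ^ t) * ((-1 : ℝ) ^ t) = 1 := by
    rw [← pow_add, ← two_mul, pow_mul]
    norm_num
  have hodd : ((-1 : ℝ) ^ n) = - ((-1 : ℝ) ^ t) := by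
    have h1 : ((-1 : ℝ) ^ (t + n)) = -1 := hm.neg_one_pow
    rw [pow_add] at h1
    have h2 : ((-1 : ℝ) ^ t) * (((-1 : ℝ) ^ t) * ((-1 : ℝ) ^ n)) = ((-1 : ℝ) ^ t) * (-1) := by
      rw [h1]
    rw [← mul_assoc, hsq] at h2
    linarith
  rw [Finset.sum_range_add]
  have e : Finset.range (t + n) = Finset.range (n + t) := by rw [add_comm]
  rw [e, Finset.sum_range_add, mul_add, add_comm]
  congr 1
  · rw [Finset.mul_sum]
    apply Finset.sum_congr rfl
    intro r hr
    rw [Finset.mem_range] at hr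
    rw [if_pos (by omega), pow_add]
    calc (-1 : ℝ) ^ t * ((-1) ^ t * (-1) ^ r * W (t + r))
        = ((-1 : ℝ) ^ t * (-1) ^ t) * ((-1) ^ r * W (t + r)) := by ring
      _ = (-1) ^ r * W (t + r) := by rw [hsq, one_mul]
  · rw [Finset.mul_sum]
    apply Finset.sum_congr rfl
    intro r hr
    rw [Finset.mem_range] at hr
    rw [if_neg (by omega), pow_add, hodd]
    have e2 : t + (n + r) - (t + n) = r := by omega
    rw [e2]
    ring

/-- `m` sign changes force degree at least `m`. -/
lemma degree_of_sign_changes (Q : Polynomial ℝ) (m : ℕ) (X : ℕ → ℝ)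
    (hX : ∀ t, t < m → X t < X (t + 1))
    (hs : ∀ t, t < m → Q.eval (X t) * Q.eval (X (t + 1)) < 0) : m ≤ Q.natDegree := by
  rcases Nat.eq_zero_or_pos m with rfl | hmpos
  · exact Nat.zero_le _
  have hQ : Q ≠ 0 := by
    rintro rfl
    have := hs 0 hmpos
    simp at this
  have hroot : ∀ t : Fin m, ∃ r, X t < r ∧ r < X (t + 1) ∧ Q.IsRoot r := by
    intro t
    have h1 := hX t t.2
    have h2 := hs t t.2
    have hc : ContinuousOn (fun x => Q.eval x) (Set.Icc (X t) (X (t + 1))) :=
      Q.continuous.continuousOn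
    rcases lt_trichotomy (Q.eval (X t)) 0 with h | h | h
    · have h3 : 0 < Q.eval (X (t + 1)) := by
        by_contra hcon
        push Not at hcon
        have := mul_nonneg_of_nonpos_of_nonpos h.le hcon
        linarith
      obtain ⟨r, hr, hr0⟩ := intermediate_value_Ioo h1.le hc (show (0 : ℝ) ∈ Set.Ioo _ _ from ⟨h, h3⟩)
      exact ⟨r, hr.1, hr.2, hr0⟩
    · rw [h] at h2
      simp at h2
    · have h3 : Q.eval (X (t + 1)) < 0 := by
        by_contra hcon
        push Not at hcon
        have := mul_nonneg h.le hcon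
        linarith
      obtain ⟨r, hr, hr0⟩ := intermediate_value_Ioo' h1.le hc (show (0 : ℝ) ∈ Set.Ioo _ _ from ⟨h3, h⟩)
      exact ⟨r, hr.1, hr.2, hr0⟩
  choose r hr1 hr2 hr3 using hroot
  have hmono : ∀ s t : ℕ, s ≤ t → t ≤ m → X s ≤ X t := by
    intro s t hst
    induction t, hst using Nat.le_induction with
    | base => intro _; exact le_rfl
    | succ n hn ih =>
      intro hnm
      exact (ih (by omega)).trans (hX n (by omega)).le
  have hinj : Function.Injective r := by
    intro s t hst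
    by_contra hne
    rcases lt_or_gt_of_ne (fun h : (s : ℕ) = t => hne (Fin.ext h)) with h | h
    · have := hmono (s + 1) t h t.2.le
      have := hr2 s
      have := hr1 t
      linarith
    · have := hmono (t + 1) s h s.2.le
      have := hr2 t
      have := hr1 s
      linarith
  have hsub : Finset.univ.image r ⊆ Q.roots.toFinset := by
    intro y hy
    rw [Finset.mem_image] at hy
    obtain ⟨t, -, rfl⟩ := hy
    rw [Multiset.mem_toFinset, Polynomial.mem_roots hQ]
    exact hr3 t
  have hcard : (Finset.univ.image r).card = m := by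
    rw [Finset.card_image_of_injective _ hinj, Finset.card_univ, Fintype.card_fin]
  calc m = (Finset.univ.image r).card := hcard.symm
    _ ≤ Q.roots.toFinset.card := Finset.card_le_card hsub
    _ ≤ Multiset.card Q.roots := Multiset.toFinset_card_le _
    _ ≤ Q.natDegree := Q.card_roots'

end Pool.Agent.W_MP_be22fd_co
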