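import Pool.Agent.W_MP_be22fd_co.Defs

/-!
Crossing data of an arrangement and what a homeomorphism of the plane preserves.
-/

namespace Pool.Agent.W_MP_be22fd_co

structure CrossData {κ : Type} (g : κ → ℝ → ℝ) (c : κ → κ → ℝ) (up : κ → κ → Prop) : Prop where
  symm : ∀ i j, c i j = c j i
  tot : ∀ i j, i ≠ j → up i j ∨ up j i
  irr : ∀ i j, up i j → i ≠ j
  eq : ∀ i j, i ≠ j → g i (c i j) = g j (c i j)
  left : ∀ i j, up i j → ∀ x, x < c i j → g j x < g i x
  right : ∀ i j, up i j → ∀ x, c i j < x → g i x < g j x

namespace CrossData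

variable {κ : Type} {g : κ → ℝ → ℝ} {c : κ → κ → ℝ} {up : κ → κ → Prop}

lemma unique (h : CrossData g c up) {i j : κ} (hij : i ≠ j) {x : ℝ} (hx : g i x = g j x) :
    x = c i j := by
  by_contra hne
  rcases h.tot i j hij with hu | hu
  · rcases lt_or_gt_of_ne hne with hlt | hgt
    · exact absurd hx (h.left i j hu x hlt).ne'
    · exact absurd hx (h.right i j hu x hgt).ne
  · rw [h.symm i j] at hne
    rcases lt_or_gt_of_ne hne with hlt | hgt
    · exact absurd hx (h.left j i hu x hlt).ne
    · exact absurd hx (h.right j i hu x hgt).ne'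

lemma up_iff_left (h : CrossData g c up) {i j : κ} (hij : i ≠ j) {x : ℝ} (hx : x < c i j) :
    up i j ↔ g j x < g i x := by
  constructor
  · intro hu
    exact h.left i j hu x hx
  · intro hlt
    rcases h.tot i j hij with hu | hu
    · exact hu
    · rw [h.symm i j] at hx
      exact absurd hlt (h.left j i hu x hx).not_gt

lemma up_iff_right (h : CrossData g c up) {i j : κ} (hij : i ≠ j) {x : ℝ} (hx : c i j < x) :
    up i j ↔ g i x < g j x := by
  constructor
  · intro hu
    exact h.right i j hu x hx
  · intro hlt
    rcases h.tot i j hij with hu | hu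
    · exact hu
    · rw [h.symm i j] at hx
      exact absurd hlt (h.right j i hu x hx).not_gt

/-- in a simple arrangement the three crossings of three lines occur in one of two orders -/
lemma tri (h : CrossData g c up) (hs : IsSimple g) {i j k : κ} (hij : up i j) (hjk : up j k)
    (hik : up i k) :
    (c i j < c i k ∧ c i k < c j k) ∨ (c j k < c i k ∧ c i k < c i j) := by
  have n1 := h.irr i j hij
  have n2 := h.irr j k hjk
  have n3 := h.irr i k hik
  have e := h.eq i k n3
  rcases lt_trichotomy (g j (c i k)) (g i (c i k)) with hlt | heq | hgt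
  · right
    constructor
    · by_contra hcon
      push Not at hcon
      rcases hcon.lt_or_eq with h1 | h1
      · have := h.left j k hjk _ h1
        linarith
      · have := h.eq j k n2
        rw [← h1] at this
        linarith
    · by_contra hcon
      push Not at hcon
      rcases hcon.lt_or_eq with h1 | h1
      · have := h.right i j hij _ h1
        linarith
      · have := h.eq i j n1
        rw [h1] at this
        linarith
  · exact absurd ⟨heq.symm, heq.trans e⟩ (hs i j k n1 n2 n3 (c i k))
  · left
    constructor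
    · by_contra hcon
      push Not at hcon
      rcases hcon.lt_or_eq with h1 | h1
      · have := h.left i j hij _ h1
        linarith
      · have := h.eq i j n1
        rw [← h1] at this
        linarith
    · by_contra hcon
      push Not at hcon
      rcases hcon.lt_or_eq with h1 | h1
      · have := h.right j k hjk _ h1
        linarith
      · have := h.eq j k n2
        rw [h1] at this
        linarith

end CrossData

open Classical in
lemma exists_crossData {κ : Type} {g : κ → ℝ → ℝ} (hg : IsArrangement g) :
    ∃ c up, CrossData g c up := by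
  have huniq : ∀ i j, i ≠ j → ∀ x y, g i x = g j x → g i y = g j y → x = y := by
    intro i j hij x y hx hy
    obtain ⟨t, -, ht⟩ := hg.cross i j hij
    have key : ∀ z, g i z = g j z → z = t := by
      intro z hz
      by_contra hne
      rcases lt_or_gt_of_ne hne with h | h
      · rcases ht with ht | ht
        · exact absurd hz (ht.1 z h).ne
        · exact absurd hz (ht.1 z h).ne'
      · rcases ht with ht | ht
        · exact absurd hz (ht.2 z h).ne'
        · exact absurd hz (ht.2 z h).ne
    rw [key x hx, key y hy]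
  let c : κ → κ → ℝ := fun i j => if h : i ≠ j then (hg.cross i j h).choose else 0
  have hc : ∀ i j (h : i ≠ j), c i j = (hg.cross i j h).choose := by
    intro i j h
    simp only [c, dif_pos h]
  have heq : ∀ i j, i ≠ j → g i (c i j) = g j (c i j) := by
    intro i j h
    rw [hc i j h]
    exact (hg.cross i j h).choose_spec.1
  have hsymm : ∀ i j, c i j = c j i := by
    intro i j
    by_cases h : i = j
    · rw [h]
    · exact huniq i j h _ _ (heq i j h) (heq j i (Ne.symm h)).symm
  refine ⟨c, fun i j => i ≠ j ∧ (∀ x, x < c i j → g j x < g i x) ∧ (∀ x, c i j < x → g i x < g j x),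
    hsymm, ?_, fun i j h => h.1, heq, fun i j h => h.2.1, fun i j h => h.2.2⟩
  intro i j hij
  have hs := (hg.cross i j hij).choose_spec.2
  rw [← hc i j hij] at hs
  rcases hs with hs | hs
  · right
    refine ⟨Ne.symm hij, ?_, ?_⟩
    · rw [hsymm j i]; exact hs.1
    · rw [hsymm j i]; exact hs.2
  · left
    exact ⟨hij, hs.1, hs.2⟩

/-- order of the crossings along curve `i` is preserved -/
def SM {κ : Type} (a b : κ → κ → ℝ) (i : κ) : Prop :=
  ∀ j k, j ≠ i → k ≠ i → a i j < a i k → b i j < b i k

/-- order of the crossings along curve `i` is reversed -/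
def SA {κ : Type} (a b : κ → κ → ℝ) (i : κ) : Prop :=
  ∀ j k, j ≠ i → k ≠ i → a i j < a i k → b i k < b i j

/-- A homeomorphism preserves or reverses the order of the crossings along each curve. -/
lemma mono_or_anti {κ : Type} {f g : κ → ℝ → ℝ} {a b : κ → κ → ℝ} {upf upg : κ → κ → Prop}
    (hf : CrossData f a upf) (hg : CrossData g b upg) (hfc : ∀ i, Continuous (f i))
    (h : (ℝ × ℝ) ≃ₜ (ℝ × ℝ)) (hh : ∀ i, h '' curve (f i) = curve (g i)) (i : κ) :
    SM a b i ∨ SA a b i := by
  let ψ : ℝ → ℝ := fun x => (h (x, f i x)).1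
  have hψ2 : ∀ j x, (h (x, f j x)).2 = g j ((h (x, f j x)).1) := by
    intro j x
    have : h (x, f j x) ∈ curve (g j) := by
      rw [← hh j]
      exact ⟨(x, f j x), rfl, rfl⟩
    exact this
  have hcont : Continuous ψ :=
    (h.continuous.comp (continuous_id.prodMk (hfc i))).fst
  have hinj : Function.Injective ψ := by
    intro x y hxy
    have e : h (x, f i x) = h (y, f i y) := by
      apply Prod.ext
      · exact hxy
      · rw [hψ2 i x, hψ2 i y]
        exact congrArg (g i) hxy
    exact congrArg Prod.fst (h.injective e)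
  have hcr : ∀ j, j ≠ i → ψ (a i j) = b i j := by
    intro j hj
    apply hg.unique (Ne.symm hj)
    have e := hf.eq i j (Ne.symm hj)
    have h1 := hψ2 i (a i j)
    have h2 := hψ2 j (a i j)
    rw [← e] at h2
    show g i (h (a i j, f i (a i j))).1 = g j (h (a i j, f i (a i j))).1
    rw [← h1, ← h2]
  rcases hcont.strictMono_of_inj hinj with hm | ha
  · left
    intro j k hj hk hlt
    rw [← hcr j hj, ← hcr k hk]
    exact hm hlt
  · right
    intro j k hj hk hlt
    rw [← hcr j hj, ← hcr k hk]
    exact ha hlt

/-- the middle one of three lines is not reoriented alone -/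
lemma forbidden {κ : Type} {f g : κ → ℝ → ℝ} {a b : κ → κ → ℝ} {upf upg : κ → κ → Prop}
    (hf : CrossData f a upf) (hg : CrossData g b upg) (hs : IsSimple f) {i j k : κ}
    (hij : upf i j) (hjk : upf j k) (hik : upf i k) :
    ¬ (SM a b i ∧ SA a b j ∧ SM a b k) ∧ ¬ (SA a b i ∧ SM a b j ∧ SA a b k) := by
  have n1 := hf.irr i j hij
  have n2 := hf.irr j k hjk
  have n3 := hf.irr i k hik
  have s1 := hf.symm i j
  have s2 := hf.symm j k
  have s3 := hf.symm i k
  have t1 := hg.symm i j
  have t2 := hg.symm j k
  have t3 := hg.symm i k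
  rcases hf.tri hs hij hjk hik with ⟨h1, h2⟩ | ⟨h1, h2⟩
  · constructor
    · rintro ⟨hi, hj, hk⟩
      have a1 := hi j k n1.symm n3.symm h1
      have a2 := hj i k n1 n2.symm (by linarith)
      have a3 := hk i j n3 n2 (by linarith)
      linarith
    · rintro ⟨hi, hj, hk⟩
      have a1 := hi j k n1.symm n3.symm h1
      have a2 := hj i k n1 n2.symm (by linarith)
      have a3 := hk i j n3 n2 (by linarith)
      linarith
  · constructor
    · rintro ⟨hi, hj, hk⟩
      have a1 := hi k j n3.symm n1.symm h2
      have a2 := hj k i n2.symm n1 (by linarith)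
      have a3 := hk j i n2 n3 (by linarith)
      linarith
    · rintro ⟨hi, hj, hk⟩
      have a1 := hi k j n3.symm n1.symm h2
      have a2 := hj k i n2.symm n1 (by linarith)
      have a3 := hk j i n2 n3 (by linarith)
      linarith

/-- of two blocks of lines, the first above the second, one is uniformly oriented -/
lemma two_blocks {κ : Type} {f g : κ → ℝ → ℝ} {a b : κ → κ → ℝ} {upf upg : κ → κ → Prop}
    (hf : CrossData f a upf) (hg : CrossData g b upg) (hs : IsSimple f)
    (hsm : ∀ i, SM a b i ∨ SA a b i) (P Q : κ → Prop) (hPQ : ∀ i j, P i → Q j → upf i j) :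
    ((∀ i, P i → SM a b i) ∨ (∀ i, P i → SA a b i)) ∨
    ((∀ i, Q i → SM a b i) ∨ (∀ i, Q i → SA a b i)) := by
  by_contra hcon
  push Not at hcon
  obtain ⟨⟨⟨i, hiP, hi⟩, ⟨i', hiP', hi'⟩⟩, ⟨j, hjQ, hj⟩, ⟨j', hjQ', hj'⟩⟩ := hcon
  have hi2 : SA a b i := (hsm i).resolve_left hi
  have hi2' : SM a b i' := (hsm i').resolve_right hi'
  have hj2 : SA a b j := (hsm j).resolve_left hj
  have hj2' : SM a b j' := (hsm j').resolve_right hj'
  have hne : j ≠ j' := by
    rintro rfl
    exact hj hj2'
  rcases hf.tot j j' hne with h | h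
  · -- j above j', j is SA, j' is SM : i' (SM) above both
    exact (forbidden hf hg hs (hPQ i' j hiP' hjQ) h (hPQ i' j' hiP' hjQ')).1 ⟨hi2', hj2, hj2'⟩
  · exact (forbidden hf hg hs (hPQ i j' hiP hjQ') h (hPQ i j hiP hjQ)).2 ⟨hi2, hj2', hj2⟩

end Pool.Agent.W_MP_be22fd_co
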