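import Pool.Agent.W_MP_be22fd_co.Model
import Pool.Agent.W_MP_be22fd_co.Rigid
import Pool.Agent.W_MP_be22fd_co.AltSum

/-!
The alternating functional of one gadget changes sign `m` times.
-/

namespace Pool.Agent.W_MP_be22fd_co

open Kind

section

variable {m : ℕ} {g : Line m → ℝ → ℝ} {b : Line m → Line m → ℝ} {up : Line m → Line m → Prop}

def above {m : ℕ} (p q : Line m) : Prop := hk m q 0 < hk m p 0

lemma above_ne {p q : Line m} (h : above p q) : p ≠ q := by
  rintro rfl
  exact lt_irrefl _ h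

lemma above_trans {p q r : Line m} (h1 : above p q) (h2 : above q r) : above p r :=
  lt_trans h2 h1

lemma orient (hc : CrossData g b up)
    (hT : ∀ p q r, above p q → above q r →
      (b p q < b p r ∧ b p r < b q r) ∨ (b q r < b p r ∧ b p r < b p q))
    {p q r : Line m} (hpq : above p q) (hqr : above q r) :
    (up p q ↔ up p r) ∧ (up q r ↔ up p r) := by
  have n1 := above_ne hpq
  have n2 := above_ne hqr
  have n3 := above_ne (above_trans hpq hqr)
  have e1 := hc.eq p q n1
  have e2 := hc.eq q r n2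
  rcases hT p q r hpq hqr with ⟨h1, h2⟩ | ⟨h1, h2⟩
  · constructor
    · rw [hc.up_iff_right n1 (h1.trans h2), hc.up_iff_right n3 h2, e2]
    · rw [hc.up_iff_left n2 (h1.trans h2), hc.up_iff_left n3 h1, e1]
  · constructor
    · rw [hc.up_iff_left n1 (h1.trans h2), hc.up_iff_left n3 h1, e2]
    · rw [hc.up_iff_right n2 (h1.trans h2), hc.up_iff_right n3 h2, e1]

def Base {m : ℕ} (p : Line m) : Prop := p.1 = U ∨ p.1 = V

lemma hk_U (a : Fin m) : hk m (U, a) 0 = (m : ℤ) - (a : ℕ) := by
  simp [hk, hgt]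

lemma hk_V (a : Fin m) : hk m (V, a) 0 = ((a : ℕ) : ℤ) - m := by
  simp [hk, hgt]

lemma exists_sigma (hm : 0 < m) (hc : CrossData g b up)
    (hT : ∀ p q r, above p q → above q r →
      (b p q < b p r ∧ b p r < b q r) ∨ (b q r < b p r ∧ b p r < b p q)) :
    ∃ σ : ℝ, ∀ p q, Base p → Base q → above p q →
      (∀ x, x < b p q → 0 < σ * (g p x - g q x)) ∧ (∀ x, b p q < x → σ * (g p x - g q x) < 0) := by
  set P₀ : Line m := (U, ⟨0, hm⟩) with hP₀
  set Q₀ : Line m := (V, ⟨0, hm⟩) with hQ₀
  have hP : ∀ p, Base p → p ≠ P₀ → above P₀ p := by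
    rintro ⟨k, a⟩ hb hne
    unfold above
    rcases hb with hb | hb <;> simp only at hb <;> subst hb
    · rw [hk_U, hP₀, hk_U]
      have : (a : ℕ) ≠ 0 := by
        intro h0
        apply hne
        rw [hP₀]
        congr 1
        exact Fin.ext h0
      simp only
      omega
    · rw [hk_V, hP₀, hk_U]
      have := a.2
      simp only
      omega
  have hQ : ∀ p, Base p → p ≠ Q₀ → above p Q₀ := by
    rintro ⟨k, a⟩ hb hne
    unfold above
    rcases hb with hb | hb <;> simp only at hb <;> subst hb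
    · rw [hk_U, hQ₀, hk_V]
      have := a.2
      simp only
      omega
    · rw [hk_V, hk_V]
      have : (a : ℕ) ≠ 0 := by
        intro h0
        apply hne
        rw [hQ₀]
        congr 1
        exact Fin.ext h0
      simp only
      omega
  have hall : ∀ p q, Base p → Base q → above p q → (up p q ↔ up P₀ Q₀) := by
    intro p q hp hq hpq
    have step1 : up p q ↔ up P₀ q := by
      by_cases h : p = P₀
      · rw [h]
      · exact (orient hc hT (hP p hp h) hpq).2
    have hPq : above P₀ q := by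
      by_cases h : p = P₀
      · rw [← h]; exact hpq
      · exact above_trans (hP p hp h) hpq
    have step2 : up P₀ q ↔ up P₀ Q₀ := by
      by_cases h : q = Q₀
      · rw [h]
      · exact (orient hc hT hPq (hQ q hq h)).1
    exact step1.trans step2
  by_cases hu : up P₀ Q₀
  · refine ⟨1, fun p q hp hq hpq => ⟨fun x hx => ?_, fun x hx => ?_⟩⟩
    · have := hc.left p q ((hall p q hp hq hpq).2 hu) x hx
      linarith
    · have := hc.right p q ((hall p q hp hq hpq).2 hu) x hx
      linarith
  · refine ⟨-1, fun p q hp hq hpq => ?_⟩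
    have hqp : up q p := (hc.tot p q (above_ne hpq)).resolve_left
      (fun h => hu ((hall p q hp hq hpq).1 h))
    refine ⟨fun x hx => ?_, fun x hx => ?_⟩
    · have := hc.left q p hqp x (by rw [hc.symm q p]; exact hx)
      linarith
    · have := hc.right q p hqp x (by rw [hc.symm q p]; exact hx)
      linarith

lemma core (hm : Odd m) (hc : CrossData g b up)
    (hL : ∀ p q r : Line m, q ≠ p → r ≠ p → sl p q < sl p r → b p q < b p r)
    (hT : ∀ p q r, above p q → above q r →
      (b p q < b p r ∧ b p r < b q r) ∨ (b q r < b p r ∧ b p r < b p q)) :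
    ∃ (σ : ℝ) (X : ℕ → ℝ), (∀ t, t < m → X t < X (t + 1)) ∧
      ∀ t, t ≤ m → 0 < (-1 : ℝ) ^ t *
        (σ * ∑ a : Fin m, (-1 : ℝ) ^ (a : ℕ) * (g (U, a) (X t) - g (V, a) (X t))) := by
  have hm0 : 0 < m := hm.pos
  obtain ⟨σ, hσ⟩ := exists_sigma hm0 hc hT
  obtain ⟨M, hM⟩ : ∃ M : ℝ, ∀ p q, b p q < M := by
    have hfin : (Set.range (fun pq : Line m × Line m => b pq.1 pq.2)).Finite := Set.finite_range _
    obtain ⟨M, hM⟩ := hfin.bddAbove
    refine ⟨M + 1, fun p q => ?_⟩
    have := hM ⟨(p, q), rfl⟩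
    simp only at this
    linarith
  let X : ℕ → ℝ := fun t => if h : t < m then b (S, ⟨t, h⟩) (R, ⟨t, h⟩) else M
  have hXlt : ∀ t (h : t < m), X t = b (S, ⟨t, h⟩) (R, ⟨t, h⟩) := fun t h => by
    simp only [X, dif_pos h]
  have hXge : ∀ t, ¬ t < m → X t = M := fun t h => by simp only [X, dif_neg h]
  -- position of the crossings of base lines relative to `X t`
  have hlow : ∀ p q : Line m, Base p → Base q → p ≠ q → ∀ t, t ≤ m → sl p q < 4 * t →
      b p q < X t := by
    intro p q hp hq hpq t htm hlt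
    by_cases h : t < m
    · rw [hXlt t h]
      have n1 : ((S, ⟨t, h⟩) : Line m) ≠ p := by
        rintro rfl
        rcases hp with hp | hp <;> simp at hp
      have n2 : ((R, ⟨t, h⟩) : Line m) ≠ (S, ⟨t, h⟩) := by simp
      have e1 : sl p (S, ⟨t, h⟩) = 4 * t := by
        obtain ⟨k, a⟩ := p
        rcases hp with hp | hp <;> simp only at hp <;> subst hp <;> rfl
      have e2 : sl (S, ⟨t, h⟩) p = 4 * t := by
        obtain ⟨k, a⟩ := p
        rcases hp with hp | hp <;> simp only at hp <;> subst hp <;> rfl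
      have e3 : sl ((S, ⟨t, h⟩) : Line m) (R, ⟨t, h⟩) = 4 * t + 1 := by
        simp [sl, slot]
      have h1 := hL p q (S, ⟨t, h⟩) hpq.symm n1 (by rw [e1]; exact hlt)
      have h2 := hL (S, ⟨t, h⟩) p (R, ⟨t, h⟩) n1.symm n2 (by rw [e2, e3]; omega)
      rw [hc.symm (S, ⟨t, h⟩) p] at h2
      exact h1.trans h2
    · rw [hXge t h]
      exact hM p q
  have hhigh : ∀ p q : Line m, Base p → Base q → p ≠ q → ∀ t, t < m → 4 * t + 2 < sl p q →
      X t < b p q := by
    intro p q hp hq hpq t h hlt
    rw [hXlt t h]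
    have n1 : ((R, ⟨t, h⟩) : Line m) ≠ p := by
      rintro rfl
      rcases hp with hp | hp <;> simp at hp
    have n2 : ((S, ⟨t, h⟩) : Line m) ≠ (R, ⟨t, h⟩) := by simp
    have e1 : sl p (R, ⟨t, h⟩) = 4 * t + 2 := by
      obtain ⟨k, a⟩ := p
      rcases hp with hp | hp <;> simp only at hp <;> subst hp <;> rfl
    have e2 : sl (R, ⟨t, h⟩) p = 4 * t + 2 := by
      obtain ⟨k, a⟩ := p
      rcases hp with hp | hp <;> simp only at hp <;> subst hp <;> rfl
    have e3 : sl ((R, ⟨t, h⟩) : Line m) (S, ⟨t, h⟩) = 4 * t + 1 := by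
      simp [sl, slot]
    have h1 := hL p (R, ⟨t, h⟩) q n1 hpq.symm (by rw [e1]; exact hlt)
    have h2 := hL (R, ⟨t, h⟩) (S, ⟨t, h⟩) p n2 n1.symm (by rw [e2, e3]; omega)
    rw [hc.symm (R, ⟨t, h⟩) p, hc.symm (R, ⟨t, h⟩) (S, ⟨t, h⟩)] at h2
    exact h2.trans h1
  refine ⟨σ, X, ?_, ?_⟩
  · intro t ht
    have hne : ((U, ⟨t, ht⟩) : Line m) ≠ (V, ⟨t, ht⟩) := by simp
    have e : sl ((U, ⟨t, ht⟩) : Line m) (V, ⟨t, ht⟩) = 4 * t + 3 := by simp [sl, slot]
    have h1 := hhigh (U, ⟨t, ht⟩) (V, ⟨t, ht⟩) (Or.inl rfl) (Or.inr rfl) hne t ht (by rw [e]; omega)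
    have h2 := hlow (U, ⟨t, ht⟩) (V, ⟨t, ht⟩) (Or.inl rfl) (Or.inr rfl) hne (t + 1) ht
      (by rw [e]; omega)
    exact h1.trans h2
  · intro t ht
    -- signs of differences of base lines at `X t`
    have hpos : ∀ p q : Line m, Base p → Base q → above p q → 4 * t + 2 < sl p q → t < m →
        0 < σ * (g p (X t) - g q (X t)) := fun p q hp hq hpq hs htm =>
      (hσ p q hp hq hpq).1 _ (hhigh p q hp hq (above_ne hpq) t htm hs)
    have hneg : ∀ p q : Line m, Base p → Base q → above p q → sl p q < 4 * t →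
        σ * (g p (X t) - g q (X t)) < 0 := fun p q hp hq hpq hs =>
      (hσ p q hp hq hpq).2 _ (hlow p q hp hq (above_ne hpq) t ht hs)
    let W : ℕ → ℝ := fun a => if h : a < m then
      σ * (g (U, ⟨a, h⟩) (X t) - g (V, ⟨a, h⟩) (X t)) else 0
    have hW : ∀ a (h : a < m), W a = σ * (g (U, ⟨a, h⟩) (X t) - g (V, ⟨a, h⟩) (X t)) :=
      fun a h => by simp only [W, dif_pos h]
    have bU : ∀ a, Base ((U, a) : Line m) := fun a => Or.inl rfl
    have bV : ∀ a, Base ((V, a) : Line m) := fun a => Or.inr rfl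
    -- (1)
    have w1 : ∀ a c (ha : a < m) (hc' : c < m), a < c → t ≤ a → W c < W a := by
      intro a c ha hc' hac hta
      rw [hW a ha, hW c hc']
      have h1 := hpos (U, ⟨a, ha⟩) (U, ⟨c, hc'⟩) (bU _) (bU _)
        (by unfold above; rw [hk_U, hk_U]; simp only; omega)
        (by simp only [sl, slot]; omega) (by omega)
      have h2 := hpos (V, ⟨c, hc'⟩) (V, ⟨a, ha⟩) (bV _) (bV _)
        (by unfold above; rw [hk_V, hk_V]; simp only; omega)
        (by simp only [sl, slot]; omega) (by omega)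
      nlinarith [h1, h2]
    have w2 : ∀ a c (ha : a < m) (hc' : c < m), a < c → a < t → W a < W c := by
      intro a c ha hc' hac hta
      rw [hW a ha, hW c hc']
      have h1 := hneg (U, ⟨a, ha⟩) (U, ⟨c, hc'⟩) (bU _) (bU _)
        (by unfold above; rw [hk_U, hk_U]; simp only; omega)
        (by simp only [sl, slot]; omega)
      have h2 := hneg (V, ⟨c, hc'⟩) (V, ⟨a, ha⟩) (bV _) (bV _)
        (by unfold above; rw [hk_V, hk_V]; simp only; omega)
        (by simp only [sl, slot]; omega)
      nlinarith [h1, h2]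
    have w3 : ∀ a c (ha : a < m) (hc' : c < m), a < t → t ≤ c → 0 < W c + W a := by
      intro a c ha hc' hat htc
      rw [hW a ha, hW c hc']
      have h1 := hpos (U, ⟨c, hc'⟩) (V, ⟨a, ha⟩) (bU _) (bV _)
        (by unfold above; rw [hk_U, hk_V]; simp only; omega)
        (by simp only [sl, slot]; omega) (by omega)
      have h2 := hpos (U, ⟨a, ha⟩) (V, ⟨c, hc'⟩) (bU _) (bV _)
        (by unfold above; rw [hk_U, hk_V]; simp only; omega)
        (by simp only [sl, slot]; omega) (by omega)
      nlinarith [h1, h2]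
    have w4 : ∀ a (_ : a < m), t ≤ a → 0 < W a := by
      intro a ha hta
      rw [hW a ha]
      exact hpos (U, ⟨a, ha⟩) (V, ⟨a, ha⟩) (bU _) (bV _)
        (by unfold above; rw [hk_U, hk_V]; simp only; omega)
        (by simp only [sl, slot]; omega) (by omega)
    have w5 : ∀ a (_ : a < m), a < t → W a < 0 := by
      intro a ha hta
      rw [hW a ha]
      exact hneg (U, ⟨a, ha⟩) (V, ⟨a, ha⟩) (bU _) (bV _)
        (by unfold above; rw [hk_U, hk_V]; simp only; omega)
        (by simp only [sl, slot]; omega)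
    have hsum : σ * ∑ a : Fin m, (-1 : ℝ) ^ (a : ℕ) * (g (U, a) (X t) - g (V, a) (X t)) =
        ∑ a ∈ Finset.range m, (-1 : ℝ) ^ a * W a := by
      rw [Finset.sum_range, Finset.mul_sum]
      apply Finset.sum_congr rfl
      intro a _
      rw [hW a a.2]
      ring
    rw [hsum, reindex m t hm ht]
    apply alt_sum_pos' m hm
    · intro r hr
      by_cases h1 : t + (r + 1) < m
      · rw [if_pos h1, if_pos (by omega)]
        exact w1 (t + r) (t + (r + 1)) (by omega) h1 (by omega) (by omega)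
      · rw [if_neg h1]
        by_cases h2 : t + r < m
        · rw [if_pos h2]
          have e : t + (r + 1) - m = 0 := by omega
          rw [e]
          have := w3 0 (t + r) hm0 h2 (by omega) (by omega)
          linarith
        · rw [if_neg h2]
          have := w2 (t + r - m) (t + (r + 1) - m) (by omega) (by omega) (by omega) (by omega)
          linarith
    · by_cases h1 : t + (m - 1) < m
      · rw [if_pos h1]
        exact w4 _ h1 (by omega)
      · rw [if_neg h1]
        have := w5 (t + (m - 1) - m) (by omega) (by omega)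
        linarith

end

end Pool.Agent.W_MP_be22fd_co
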