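import Mathlib

/-!
Definitions for MP_be22fd_co (polynomial realisation of pseudoline arrangements).
-/

namespace Pool.Agent.W_MP_be22fd_co

/-- The difference `u - v` has exactly one zero `t` and changes sign there. -/
def CrossOnce (u v : ℝ → ℝ) : Prop :=
  ∃ t : ℝ, u t = v t ∧
    (((∀ x, x < t → u x < v x) ∧ (∀ x, t < x → v x < u x)) ∨
     ((∀ x, x < t → v x < u x) ∧ (∀ x, t < x → u x < v x)))

/-- A family of continuous functions whose graphs are pairwise crossing exactly once. -/
structure IsArrangement {ι : Type} (f : ι → ℝ → ℝ) : Prop where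
  cont : ∀ i, Continuous (f i)
  cross : ∀ i j, i ≠ j → CrossOnce (f i) (f j)

/-- No three of the curves pass through a common point. -/
def IsSimple {ι : Type} (f : ι → ℝ → ℝ) : Prop :=
  ∀ i j k, i ≠ j → j ≠ k → i ≠ k → ∀ x, ¬ (f i x = f j x ∧ f j x = f k x)

/-- The graph of a function as a subset of the plane. -/
def curve (u : ℝ → ℝ) : Set (ℝ × ℝ) := {p | p.2 = u p.1}

/-- Some homeomorphism of the plane maps the curves of `f` bijectively onto those of `g`. -/
def Isomorphic {ι : Type} (f g : ι → ℝ → ℝ) : Prop :=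
  ∃ (h : (ℝ × ℝ) ≃ₜ (ℝ × ℝ)) (σ : Equiv.Perm ι), ∀ i, h '' curve (f i) = curve (g (σ i))

/-- `f` is isomorphic to an arrangement of graphs of real polynomials of degree at most `d`. -/
def Stretchable {ι : Type} (d : ℕ) (f : ι → ℝ → ℝ) : Prop :=
  ∃ p : ι → Polynomial ℝ, (∀ i, (p i).natDegree ≤ d) ∧
    IsArrangement (fun i x => (p i).eval x) ∧ Isomorphic f (fun i x => (p i).eval x)

end Pool.Agent.W_MP_be22fd_co
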