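import Pool.Agent.W_MP_be22fd_co.Core

/-!
Assembly: the linear lower bound.
-/

namespace Pool.Agent.W_MP_be22fd_co

open Kind

lemma card_Idx (m e : ℕ) : Fintype.card (Idx m e) = 8 * m + e := by
  simp only [Idx, Line, Fintype.card_sum, Fintype.card_prod, card_Kind, Fintype.card_fin,
    Fintype.card_bool]
  ring

/-- facts about the crossings of the model arrangement -/
lemma model_facts {m e : ℕ} (s : Idx m e → ℝ) (hs : ∀ i, s i ∈ Set.Ioo (0 : ℝ) 1)
    {a : Idx m e → Idx m e → ℝ} {up : Idx m e → Idx m e → Prop}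
    (hc : CrossData (mod m e s) a up) :
    (∀ i j, ht m e j 0 < ht m e i 0 → up i j) ∧
    (∀ p q c, p ≠ q → (sl p q : ℝ) < a (Sum.inl (p, c)) (Sum.inl (q, c)) ∧
      a (Sum.inl (p, c)) (Sum.inl (q, c)) < (sl p q : ℝ) + 1) := by
  have hsl : ∀ p q : Line m, sl p q = sl q p := by
    rintro ⟨p, a⟩ ⟨q, b⟩
    cases p <;> cases q <;> simp only [sl, slot, min_comm, max_comm]
  have key : ∀ i j, ht m e j 0 < ht m e i 0 → up i j ∧
      (∀ p q c, i = Sum.inl (p, c) → j = Sum.inl (q, c) → (sl p q : ℝ) < a i j ∧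
        a i j < (sl p q : ℝ) + 1) := by
    intro i j hij
    have hne : i ≠ j := by
      rintro rfl
      exact lt_irrefl _ hij
    obtain ⟨t, τ, h0, h1, he, hl, hr, hτ⟩ := mod_cross s hs i j hij
    have ht : t = a i j := hc.unique hne he
    subst ht
    refine ⟨?_, fun p q c hp hq => ?_⟩
    · rw [hc.up_iff_left hne (x := a i j - 1) (by linarith)]
      exact hl _ (by linarith)
    · have := hτ p q c hp hq
      rw [← this]
      exact ⟨h0, h1⟩
  refine ⟨fun i j h => (key i j h).1, fun p q c hpq => ?_⟩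
  have hne : (Sum.inl (p, c) : Idx m e) ≠ Sum.inl (q, c) := by
    simp only [ne_eq, Sum.inl.injEq, Prod.mk.injEq, and_true]
    exact hpq
  rcases lt_or_gt_of_ne (ht_zero_ne _ _ hne) with h | h
  · have := (key _ _ h).2 q p c rfl rfl
    rw [hc.symm, hsl p q]
    exact this
  · exact (key _ _ h).2 p q c rfl rfl

lemma ht_copy {m e : ℕ} (p q : Line m) (c : Bool) (h : above p q) :
    ht m e (Sum.inl (q, c)) 0 < ht m e (Sum.inl (p, c)) 0 := by
  unfold above at h
  cases c
  · exact h
  · simp only [ht, Nat.zero_le, if_true]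
    omega

lemma ht_blocks {m e : ℕ} (p q : Line m) :
    ht m e (Sum.inl (q, true)) 0 < ht m e (Sum.inl (p, false)) 0 := by
  have h1 := hgt_bound m p.1 p.2 0 p.2.2 (by omega)
  have h2 := hgt_bound m q.1 q.2 0 q.2.2 (by omega)
  simp only [ht, hk, Nat.zero_le, if_true]
  omega

/-- one uniformly oriented gadget forces the degree -/
lemma gadget_degree {m d : ℕ} (hm : Odd m) (P : Line m → Polynomial ℝ)
    (hP : ∀ p, (P p).natDegree ≤ d) {a b : Line m → Line m → ℝ}
    {f : Line m → ℝ → ℝ} {upf upg : Line m → Line m → Prop}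
    (hf : CrossData f a upf) (hfs : IsSimple f)
    (hg : CrossData (fun p x => (P p).eval x) b upg)
    (hab : ∀ p q, above p q → upf p q)
    (ha : ∀ p q, p ≠ q → (sl p q : ℝ) < a p q ∧ a p q < (sl p q : ℝ) + 1)
    (hor : (∀ p, SM a b p) ∨ (∀ p, SA a b p)) : m ≤ d := by
  have haL : ∀ p q r : Line m, q ≠ p → r ≠ p → sl p q < sl p r → a p q < a p r := by
    intro p q r hq hr hlt
    have h1 := (ha p q hq.symm).2
    have h2 := (ha p r hr.symm).1
    have h3 : (sl p q : ℝ) + 1 ≤ (sl p r : ℝ) := by exact_mod_cast hlt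
    linarith
  -- orientation of the abscissa
  obtain ⟨δ, hδ, b', up', hcd, hL, hT⟩ : ∃ δ : ℝ, (δ = 1 ∨ δ = -1) ∧
      ∃ (b' : Line m → Line m → ℝ) (up' : Line m → Line m → Prop),
      CrossData (fun p x => (P p).eval (δ * x)) b' up' ∧
      (∀ p q r : Line m, q ≠ p → r ≠ p → sl p q < sl p r → b' p q < b' p r) ∧
      (∀ p q r, above p q → above q r →
        (b' p q < b' p r ∧ b' p r < b' q r) ∨ (b' q r < b' p r ∧ b' p r < b' p q)) := by
    rcases hor with hor | hor
    · refine ⟨1, Or.inl rfl, b, upg, ?_, ?_, ?_⟩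
      · simpa only [one_mul] using hg
      · intro p q r hq hr hlt
        exact hor p q r hq hr (haL p q r hq hr hlt)
      · intro p q r hpq hqr
        have n1 := above_ne hpq
        have n2 := above_ne hqr
        have n3 := above_ne (above_trans hpq hqr)
        rcases hf.tri hfs (hab _ _ hpq) (hab _ _ hqr) (hab _ _ (above_trans hpq hqr)) with
          ⟨h1, h2⟩ | ⟨h1, h2⟩
        · left
          have k1 := hor p q r n1.symm n3.symm h1
          have k2 := hor r p q n3 n2 (by rw [hf.symm r p, hf.symm r q]; exact h2)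
          rw [hg.symm r p, hg.symm r q] at k2
          exact ⟨k1, k2⟩
        · right
          have k1 := hor p r q n3.symm n1.symm h2
          have k2 := hor r q p n2 n3 (by rw [hf.symm r p, hf.symm r q]; exact h1)
          rw [hg.symm r p, hg.symm r q] at k2
          exact ⟨k2, k1⟩
    · refine ⟨-1, Or.inr rfl, fun p q => - b p q, fun p q => upg q p, ?_, ?_, ?_⟩
      · refine ⟨?_, ?_, ?_, ?_, ?_, ?_⟩
        · intro i j
          rw [hg.symm i j]
        · intro i j hij
          exact (hg.tot i j hij).symm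
        · intro i j h
          exact (hg.irr j i h).symm
        · intro i j hij
          have := hg.eq i j hij
          simpa using this
        · intro i j h x hx
          have hlt : b j i < -1 * x := by
            rw [hg.symm j i]
            linarith
          exact hg.right j i h _ hlt
        · intro i j h x hx
          have hlt : -1 * x < b j i := by
            rw [hg.symm j i]
            linarith
          exact hg.left j i h _ hlt
      · intro p q r hq hr hlt
        have := hor p q r hq hr (haL p q r hq hr hlt)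
        linarith
      · intro p q r hpq hqr
        have n1 := above_ne hpq
        have n2 := above_ne hqr
        have n3 := above_ne (above_trans hpq hqr)
        rcases hf.tri hfs (hab _ _ hpq) (hab _ _ hqr) (hab _ _ (above_trans hpq hqr)) with
          ⟨h1, h2⟩ | ⟨h1, h2⟩
        · left
          have k1 := hor p q r n1.symm n3.symm h1
          have k2 := hor r p q n3 n2 (by rw [hf.symm r p, hf.symm r q]; exact h2)
          rw [hg.symm r p, hg.symm r q] at k2
          exact ⟨by linarith, by linarith⟩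
        · right
          have k1 := hor p r q n3.symm n1.symm h2
          have k2 := hor r q p n2 n3 (by rw [hf.symm r p, hf.symm r q]; exact h1)
          rw [hg.symm r p, hg.symm r q] at k2
          exact ⟨by linarith, by linarith⟩
  obtain ⟨σ, X, hX, hsign⟩ := core hm hcd hL hT
  let Q : Polynomial ℝ := ∑ a : Fin m, Polynomial.C ((-1 : ℝ) ^ (a : ℕ)) *
    ((P (U, a)).comp (Polynomial.C δ * Polynomial.X) - (P (V, a)).comp (Polynomial.C δ * Polynomial.X))
  have hQeval : ∀ x, Q.eval x = ∑ a : Fin m, (-1 : ℝ) ^ (a : ℕ) *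
      ((P (U, a)).eval (δ * x) - (P (V, a)).eval (δ * x)) := by
    intro x
    simp only [Q, Polynomial.eval_finsetSum, Polynomial.eval_mul, Polynomial.eval_C,
      Polynomial.eval_sub, Polynomial.eval_comp, Polynomial.eval_X]
  have hcomp : ∀ p, ((P p).comp (Polynomial.C δ * Polynomial.X)).natDegree ≤ d := by
    intro p
    refine (Polynomial.natDegree_comp_le).trans ?_
    have h1 : (Polynomial.C δ * Polynomial.X : Polynomial ℝ).natDegree ≤ 1 :=
      (Polynomial.natDegree_C_mul_le _ _).trans Polynomial.natDegree_X_le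
    calc (P p).natDegree * (Polynomial.C δ * Polynomial.X : Polynomial ℝ).natDegree
        ≤ (P p).natDegree * 1 := Nat.mul_le_mul_left _ h1
      _ ≤ d := by rw [mul_one]; exact hP p
  have hQdeg : Q.natDegree ≤ d := by
    apply Polynomial.natDegree_sum_le_of_forall_le
    intro a _
    refine (Polynomial.natDegree_C_mul_le _ _).trans ?_
    exact (Polynomial.natDegree_sub_le _ _).trans (max_le (hcomp _) (hcomp _))
  refine (degree_of_sign_changes Q m X hX ?_).trans hQdeg
  intro t ht
  have h1 := hsign t ht.le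
  have h2 := hsign (t + 1) ht
  rw [← hQeval] at h1 h2
  have h3 := mul_pos h1 h2
  have hsq : ((-1 : ℝ) ^ t) * ((-1 : ℝ) ^ t) = 1 := by
    rw [← pow_add, ← two_mul, pow_mul]
    norm_num
  have e : (-1 : ℝ) ^ t * (σ * Q.eval (X t)) * ((-1 : ℝ) ^ (t + 1) * (σ * Q.eval (X (t + 1)))) =
      - ((-1 : ℝ) ^ t * (-1 : ℝ) ^ t) * (σ * σ) * (Q.eval (X t) * Q.eval (X (t + 1))) := by
    rw [pow_succ]
    ring
  rw [e, hsq] at h3
  by_contra hcon
  push Not at hcon
  have := mul_nonneg (mul_self_nonneg σ) hcon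
  linarith

theorem linear_lower_bound (n d : ℕ)
    (h : ∀ f : Fin n → ℝ → ℝ, IsArrangement f → IsSimple f → Stretchable d f) :
    n ≤ 8 * d + 15 := by
  by_contra hcon
  push Not at hcon
  obtain ⟨m, hm, hdm, hmn⟩ : ∃ m, Odd m ∧ d < m ∧ 8 * m ≤ n := by
    rcases Nat.even_or_odd d with hd | hd
    · exact ⟨d + 1, hd.add_one, by omega, by omega⟩
    · exact ⟨d + 2, hd.add_even even_two, by omega, by omega⟩
  obtain ⟨e, rfl⟩ : ∃ e, n = 8 * m + e := ⟨n - 8 * m, by omega⟩
  obtain ⟨s, hs, harr, hsimp⟩ := exists_model m e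
  have eqv : Idx m e ≃ Fin (8 * m + e) := Fintype.equivOfCardEq (by
    rw [card_Idx, Fintype.card_fin])
  obtain ⟨P, hPd, hParr, hh, σ, hhσ⟩ := h (fun j => mod m e s (eqv.symm j))
    ⟨fun i => harr.cont _, fun i j hij => harr.cross _ _ (fun hc => hij (eqv.symm.injective hc))⟩
    (fun i j k hij hjk hik => hsimp _ _ _ (fun hc => hij (eqv.symm.injective hc))
      (fun hc => hjk (eqv.symm.injective hc)) (fun hc => hik (eqv.symm.injective hc)))
  let ρ : Idx m e → Fin (8 * m + e) := fun i => σ (eqv i)
  have hρ : Function.Injective ρ := fun i j hij => eqv.injective (σ.injective hij)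
  have hgarr : IsArrangement (fun (i : Idx m e) x => (P (ρ i)).eval x) :=
    ⟨fun i => hParr.cont _, fun i j hij => hParr.cross _ _ (fun hc => hij (hρ hc))⟩
  have hcurve : ∀ i : Idx m e, hh '' curve (mod m e s i) = curve (fun x => (P (ρ i)).eval x) := by
    intro i
    have := hhσ (eqv i)
    simp only [Equiv.symm_apply_apply] at this
    exact this
  obtain ⟨a, upf, hf⟩ := exists_crossData harr
  obtain ⟨b, upg, hg⟩ := exists_crossData hgarr
  have hsm : ∀ i, SM a b i ∨ SA a b i := mono_or_anti hf hg harr.cont hh hcurve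
  obtain ⟨hup, hsl⟩ := model_facts s hs hf
  have hblocks := two_blocks hf hg hsimp hsm (fun i => ∃ p, i = Sum.inl (p, false))
    (fun i => ∃ p, i = Sum.inl (p, true)) (by
      rintro i j ⟨p, rfl⟩ ⟨q, rfl⟩
      exact hup _ _ (ht_blocks p q))
  -- restriction to one gadget
  have hrestr : ∀ c : Bool, ((∀ p, SM a b (Sum.inl (p, c))) ∨ (∀ p, SA a b (Sum.inl (p, c)))) →
      m ≤ d := by
    intro c hc
    have hinj : ∀ p q : Line m, p ≠ q → (Sum.inl (p, c) : Idx m e) ≠ Sum.inl (q, c) := by
      intro p q hpq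
      simp only [ne_eq, Sum.inl.injEq, Prod.mk.injEq, and_true]
      exact hpq
    refine gadget_degree hm (fun p : Line m => P (ρ (Sum.inl (p, c)))) (fun p => hPd _)
      (a := fun p q => a (Sum.inl (p, c)) (Sum.inl (q, c)))
      (b := fun p q => b (Sum.inl (p, c)) (Sum.inl (q, c)))
      (f := fun p => mod m e s (Sum.inl (p, c)))
      (upf := fun p q => upf (Sum.inl (p, c)) (Sum.inl (q, c)))
      (upg := fun p q => upg (Sum.inl (p, c)) (Sum.inl (q, c)))
      ⟨fun p q => hf.symm _ _, fun p q hpq => hf.tot _ _ (hinj p q hpq),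
        fun p q hpq h' => hf.irr _ _ hpq (by rw [h']), fun p q hpq => hf.eq _ _ (hinj p q hpq),
        fun p q hpq => hf.left _ _ hpq, fun p q hpq => hf.right _ _ hpq⟩
      (fun p q r hpq hqr hpr => hsimp _ _ _ (hinj p q hpq) (hinj q r hqr) (hinj p r hpr))
      ⟨fun p q => hg.symm _ _, fun p q hpq => hg.tot _ _ (hinj p q hpq),
        fun p q hpq h' => hg.irr _ _ hpq (by rw [h']), fun p q hpq => hg.eq _ _ (hinj p q hpq),
        fun p q hpq => hg.left _ _ hpq, fun p q hpq => hg.right _ _ hpq⟩
      (fun p q hpq => hup _ _ (ht_copy p q c hpq))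
      (fun p q hpq => hsl p q c hpq) ?_
    rcases hc with hc | hc
    · left
      intro p q r hq hr hlt
      exact hc p _ _ (hinj q p hq) (hinj r p hr) hlt
    · right
      intro p q r hq hr hlt
      exact hc p _ _ (hinj q p hq) (hinj r p hr) hlt
  have hmd : m ≤ d := by
    rcases hblocks with hb | hb
    · exact hrestr false (hb.imp (fun h p => h _ ⟨p, rfl⟩) (fun h p => h _ ⟨p, rfl⟩))
    · exact hrestr true (hb.imp (fun h p => h _ ⟨p, rfl⟩) (fun h p => h _ ⟨p, rfl⟩))
  omega

end Pool.Agent.W_MP_be22fd_co
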