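import Mathlib

/-!
Generic vertical shifts destroy all triple points.
-/

namespace Pool.Agent.W_MP_be22fd_co

lemma exists_generic {ι : Type} [Fintype ι] [DecidableEq ι] (G : ι → ℝ → ℝ)
    (hG : ∀ s : ι → ℝ, (∀ i, s i ∈ Set.Ioo (0 : ℝ) 1) → ∀ i j, i ≠ j →
      ∃ x, ∀ y, G i y + s i = G j y + s j → y = x) :
    ∃ s : ι → ℝ, (∀ i, s i ∈ Set.Ioo (0 : ℝ) 1) ∧
      ∀ i j k, i ≠ j → j ≠ k → i ≠ k →
        ∀ x, ¬ (G i x + s i = G j x + s j ∧ G j x + s j = G k x + s k) := by
  suffices H : ∀ T : Finset ι, ∃ s : ι → ℝ, (∀ i, s i ∈ Set.Ioo (0 : ℝ) 1) ∧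
      ∀ i ∈ T, ∀ j ∈ T, ∀ k ∈ T, i ≠ j → j ≠ k → i ≠ k →
        ∀ x, ¬ (G i x + s i = G j x + s j ∧ G j x + s j = G k x + s k) by
    obtain ⟨s, hs, h⟩ := H Finset.univ
    exact ⟨s, hs, fun i j k hij hjk hik => h i (Finset.mem_univ _) j (Finset.mem_univ _) k
      (Finset.mem_univ _) hij hjk hik⟩
  intro T
  induction T using Finset.induction_on with
  | empty => exact ⟨fun _ => 1 / 2, fun i => ⟨by norm_num, by norm_num⟩, by simp⟩
  | insert k₀ T hk₀ ih =>
    obtain ⟨s, hs, h⟩ := ih
    let bad : Set ℝ := ⋃ i ∈ (T : Set ι), ⋃ j ∈ (T : Set ι),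
      {y | i ≠ j ∧ ∃ x, G i x + s i = G j x + s j ∧ G i x + s i = G k₀ x + y}
    have hbad : bad.Finite := by
      refine Set.Finite.biUnion T.finite_toSet fun i _ => Set.Finite.biUnion T.finite_toSet fun j _ => ?_
      apply Set.Subsingleton.finite
      intro y hy y' hy'
      obtain ⟨hij, x, hx1, hx2⟩ := hy
      obtain ⟨-, x', hx1', hx2'⟩ := hy'
      obtain ⟨x₀, hx₀⟩ := hG s hs i j hij
      have e1 := hx₀ x hx1
      have e2 := hx₀ x' hx1'
      subst e1
      subst e2
      linarith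
    obtain ⟨y, hy, hyb⟩ : ∃ y, y ∈ Set.Ioo (0 : ℝ) 1 ∧ y ∉ bad := by
      have hinf : (Set.Ioo (0 : ℝ) 1 \ bad).Infinite :=
        (Set.Ioo_infinite (by norm_num)).sdiff hbad
      obtain ⟨y, hy⟩ := hinf.nonempty
      exact ⟨y, hy.1, hy.2⟩
    have hyb' : ∀ i ∈ T, ∀ j ∈ T, i ≠ j → ∀ x, G i x + s i = G j x + s j →
        G i x + s i = G k₀ x + y → False := by
      intro i hi j hj hij x h1 h2
      apply hyb
      simp only [bad, Set.mem_iUnion]
      exact ⟨i, hi, j, hj, hij, x, h1, h2⟩
    refine ⟨Function.update s k₀ y, ?_, ?_⟩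
    · intro i
      by_cases hi : i = k₀
      · subst hi
        simpa using hy
      · simpa [Function.update_of_ne hi] using hs i
    · have key : ∀ i, i ≠ k₀ → Function.update s k₀ y i = s i := fun i hi =>
        Function.update_of_ne hi _ _
      have keyk : Function.update s k₀ y k₀ = y := Function.update_self _ _ _
      intro i hi j hj k hk hij hjk hik x hx
      obtain ⟨h1, h2⟩ := hx
      rw [Finset.mem_insert] at hi hj hk
      by_cases hi0 : i = k₀
      · subst hi0
        have hj' : j ∈ T := hj.resolve_left (Ne.symm hij)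
        have hk' : k ∈ T := hk.resolve_left (Ne.symm hik)
        rw [keyk, key j (Ne.symm hij)] at h1
        rw [key j (Ne.symm hij), key k (Ne.symm hik)] at h2
        exact hyb' j hj' k hk' hjk x h2 h1.symm
      · have hi' : i ∈ T := hi.resolve_left hi0
        by_cases hj0 : j = k₀
        · subst hj0
          have hk' : k ∈ T := hk.resolve_left (Ne.symm hjk)
          rw [keyk, key i hi0] at h1
          rw [keyk, key k (Ne.symm hjk)] at h2
          exact hyb' i hi' k hk' hik x (h1.trans h2) h1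
        · have hj' : j ∈ T := hj.resolve_left hj0
          by_cases hk0 : k = k₀
          · subst hk0
            rw [key i hi0, key j hj0] at h1
            rw [keyk, key j hj0] at h2
            exact hyb' i hi' j hj' hij x h1 (h1.trans h2)
          · have hk' : k ∈ T := hk.resolve_left hk0
            rw [key i hi0, key j hj0] at h1
            rw [key j hj0, key k hk0] at h2
            exact h i hi' j hj' k hk' hij hjk hik x ⟨h1, h2⟩

end Pool.Agent.W_MP_be22fd_co
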