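import Mathlib

/-!
Integer heights of the lines of one gadget: base lines `U a`, `V a` and the two kinds of
synchronising lines `S a`, `R a`, for `a < m`.  Time runs over `0, 1, ..., 4 m + 1`.
-/

namespace Pool.Agent.W_MP_be22fd_co

inductive Kind
  | U | V | S | R
  deriving DecidableEq

instance : Fintype Kind :=
  ⟨⟨[Kind.U, Kind.V, Kind.S, Kind.R], by decide⟩, by intro x; cases x <;> decide⟩

lemma card_Kind : Fintype.card Kind = 4 := by decide

open Kind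

def hgt (m : ℕ) : Kind → ℕ → ℕ → ℤ
  | U, a, k => if k / 4 ≤ a then (m : ℤ) + ((k / 4 : ℕ) : ℤ) - a else (a : ℤ) - ((k / 4 : ℕ) : ℤ)
  | V, a, k => if k / 4 ≤ a then (a : ℤ) - m - ((k / 4 : ℕ) : ℤ) else ((k / 4 : ℕ) : ℤ) - a
  | S, a, k => if k ≤ 4 * a then 3 * (m : ℤ) + 3 + a else
      if k = 4 * a + 1 then -((m : ℤ) + 1) else -(3 * (m : ℤ) + 3 + a)
  | R, a, k => if k ≤ 4 * a + 2 then -((m : ℤ) + 2 + a) else (m : ℤ) + 2 + a

/-- slot of a pair of lines -/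
def slot : Kind → ℕ → Kind → ℕ → ℕ
  | U, a, U, b => 4 * min a b + 3
  | V, a, V, b => 4 * min a b + 3
  | U, a, V, b => 4 * max a b + 3
  | V, a, U, b => 4 * max a b + 3
  | U, _, S, b => 4 * b
  | V, _, S, b => 4 * b
  | S, a, U, _ => 4 * a
  | S, a, V, _ => 4 * a
  | U, _, R, b => 4 * b + 2
  | V, _, R, b => 4 * b + 2
  | R, a, U, _ => 4 * a + 2
  | R, a, V, _ => 4 * a + 2
  | S, a, R, b => if a ≤ b then 4 * a + 1 else 4 * a
  | R, a, S, b => if b ≤ a then 4 * b + 1 else 4 * b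
  | S, a, S, b => 4 * max a b + 1
  | R, a, R, b => 4 * max a b + 2

/-- `i` is above `j` up to time `τ`, and below after that, until time `K`. -/
def Slot (x y : ℕ → ℤ) (K τ : ℕ) : Prop :=
  τ + 1 ≤ K ∧ (∀ k, k ≤ τ → y k < x k) ∧ (∀ k, τ < k → k ≤ K → x k < y k)

lemma slot_spec (m : ℕ) (p q : Kind) (a b : ℕ) (ha : a < m) (hb : b < m)
    (h : hgt m q b 0 < hgt m p a 0) :
    Slot (hgt m p a) (hgt m q b) (4 * m + 1) (slot p a q b) := by
  cases p <;> cases q <;> simp only [hgt, slot, Slot] at h ⊢ <;>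
    refine ⟨?_, ?_, ?_⟩ <;> (try intro k hk) <;> (try intro hk') <;> split_ifs at * <;> omega

lemma hgt_zero_ne (m : ℕ) (p q : Kind) (a b : ℕ) (ha : a < m) (hb : b < m)
    (h : (p, a) ≠ (q, b)) : hgt m p a 0 ≠ hgt m q b 0 := by
  cases p <;> cases q <;> simp only [hgt, ne_eq, Prod.mk.injEq, true_and, reduceCtorEq, false_and,
    not_false_eq_true] at h ⊢ <;> split_ifs <;> omega

lemma hgt_bound (m : ℕ) (p : Kind) (a k : ℕ) (ha : a < m) (hk : k ≤ 4 * m + 1) :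
    -(4 * (m : ℤ) + 3) ≤ hgt m p a k ∧ hgt m p a k ≤ 4 * (m : ℤ) + 3 := by
  cases p <;> simp only [hgt] <;> split_ifs <;> omega

end Pool.Agent.W_MP_be22fd_co
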