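import Mathlib

/-!
Piecewise linear interpolation of a sequence of heights.
-/

namespace Pool.Agent.W_MP_be22fd_co

noncomputable def clampF (y : ℝ) : ℝ := max 0 (min y 1)

lemma clampF_of_nonpos {y : ℝ} (h : y ≤ 0) : clampF y = 0 := by
  unfold clampF
  rw [min_eq_left (by linarith), max_eq_left h]

lemma clampF_of_one_le {y : ℝ} (h : 1 ≤ y) : clampF y = 1 := by
  unfold clampF
  rw [min_eq_right h, max_eq_right (by norm_num)]

lemma clampF_of_mem {y : ℝ} (h0 : 0 ≤ y) (h1 : y ≤ 1) : clampF y = y := by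
  unfold clampF
  rw [min_eq_left h1, max_eq_right h0]

lemma continuous_clampF : Continuous clampF := by
  unfold clampF
  exact continuous_const.max (continuous_id.min continuous_const)

noncomputable def interp (H : ℕ → ℝ) : ℕ → ℝ → ℝ
  | 0, _ => H 0
  | (K + 1), x => interp H K x + (H (K + 1) - H K) * clampF (x - K)

lemma continuous_interp (H : ℕ → ℝ) (K : ℕ) : Continuous (interp H K) := by
  induction K with
  | zero => exact continuous_const
  | succ K ih =>
    show Continuous (fun x => interp H K x + (H (K + 1) - H K) * clampF (x - K))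
    exact ih.add (continuous_const.mul (continuous_clampF.comp (continuous_id.sub continuous_const)))

lemma interp_of_nonpos (H : ℕ → ℝ) (K : ℕ) {x : ℝ} (hx : x ≤ 0) : interp H K x = H 0 := by
  induction K with
  | zero => rfl
  | succ K ih =>
    have hK : (0 : ℝ) ≤ (K : ℝ) := Nat.cast_nonneg K
    show interp H K x + (H (K + 1) - H K) * clampF (x - K) = H 0
    rw [ih, clampF_of_nonpos (by linarith)]
    ring

lemma interp_of_ge (H : ℕ → ℝ) (K : ℕ) {x : ℝ} (hx : (K : ℝ) ≤ x) : interp H K x = H K := by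
  induction K with
  | zero => rfl
  | succ K ih =>
    have hx' : (K : ℝ) + 1 ≤ x := by exact_mod_cast hx
    show interp H K x + (H (K + 1) - H K) * clampF (x - K) = H (K + 1)
    rw [ih (by linarith), clampF_of_one_le (by linarith)]
    ring

lemma interp_on (H : ℕ → ℝ) (K k : ℕ) (hk : k + 1 ≤ K) {x : ℝ} (h0 : (k : ℝ) ≤ x)
    (h1 : x ≤ (k : ℝ) + 1) : interp H K x = H k + (x - k) * (H (k + 1) - H k) := by
  induction K with
  | zero => omega
  | succ K ih =>
    show interp H K x + (H (K + 1) - H K) * clampF (x - K) = _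
    rcases Nat.lt_or_ge K (k + 1) with hlt | hge
    · have hKk : K = k := by omega
      subst hKk
      rw [interp_of_ge H K h0, clampF_of_mem (by linarith) (by linarith)]
      ring
    · have hc : ((k : ℝ) + 1) ≤ (K : ℝ) := by exact_mod_cast hge
      rw [ih hge, clampF_of_nonpos (by linarith)]
      ring

lemma interp_sub (H G : ℕ → ℝ) (K : ℕ) (x : ℝ) :
    interp H K x - interp G K x = interp (fun k => H k - G k) K x := by
  induction K with
  | zero => rfl
  | succ K ih =>
    show (interp H K x + (H (K + 1) - H K) * clampF (x - K)) -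
      (interp G K x + (G (K + 1) - G K) * clampF (x - K)) =
      interp (fun k => H k - G k) K x + ((H (K + 1) - G (K + 1)) - (H K - G K)) * clampF (x - K)
    rw [← ih]
    ring

lemma interp_add_const (H : ℕ → ℝ) (c : ℝ) (K : ℕ) (x : ℝ) :
    interp (fun k => H k + c) K x = interp H K x + c := by
  induction K with
  | zero => rfl
  | succ K ih =>
    show interp (fun k => H k + c) K x + ((H (K + 1) + c) - (H K + c)) * clampF (x - K) =
      (interp H K x + (H (K + 1) - H K) * clampF (x - K)) + c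
    rw [ih]
    ring

lemma exists_slot {x : ℝ} (hx : 0 ≤ x) : ∃ k : ℕ, (k : ℝ) ≤ x ∧ x ≤ (k : ℝ) + 1 :=
  ⟨⌊x⌋₊, Nat.floor_le hx, (Nat.lt_floor_add_one x).le⟩

/-- positivity to the left of the slot -/
lemma interp_pos_left (d : ℕ → ℝ) (K τ : ℕ) (hτ : τ + 1 ≤ K) (hd : ∀ k, k ≤ τ → 0 < d k)
    {x : ℝ} (hx : x ≤ τ) : 0 < interp d K x := by
  rcases le_or_gt x 0 with h0 | h0
  · rw [interp_of_nonpos d K h0]
    exact hd 0 (Nat.zero_le _)
  · obtain ⟨k, hk0, hk1⟩ : ∃ k : ℕ, (k : ℝ) ≤ x ∧ x < (k : ℝ) + 1 :=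
      ⟨⌊x⌋₊, Nat.floor_le h0.le, Nat.lt_floor_add_one x⟩
    have hkτ : k ≤ τ := by exact_mod_cast hk0.trans hx
    rcases Nat.eq_or_lt_of_le hkτ with he | hlt
    · subst he
      have hxe : x = k := le_antisymm hx hk0
      rw [interp_on d K k hτ hk0 hk1.le, hxe]
      simpa using hd k le_rfl
    · rw [interp_on d K k (by omega) hk0 hk1.le]
      have h1 := hd k hkτ
      have h2 := hd (k + 1) (by omega)
      have e : d k + (x - k) * (d (k + 1) - d k) = (1 - (x - k)) * d k + (x - k) * d (k + 1) := by ring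
      rw [e]
      have hs0 : 0 ≤ x - k := by linarith
      have hs1 : 0 < 1 - (x - k) := by linarith
      have := mul_pos hs1 h1
      have := mul_nonneg hs0 h2.le
      linarith

/-- negativity to the right of the slot -/
lemma interp_neg_right (d : ℕ → ℝ) (K τ : ℕ) (hτ : τ + 1 ≤ K)
    (hd : ∀ k, τ < k → k ≤ K → d k < 0)
    {x : ℝ} (hx : (τ : ℝ) + 1 ≤ x) : interp d K x < 0 := by
  rcases le_or_gt (K : ℝ) x with h0 | h0
  · rw [interp_of_ge d K h0]
    exact hd K (by omega) le_rfl
  · have hx0 : 0 ≤ x := by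
      have : (0 : ℝ) ≤ τ := Nat.cast_nonneg τ
      linarith
    obtain ⟨k, hk0, hk1⟩ : ∃ k : ℕ, (k : ℝ) ≤ x ∧ x < (k : ℝ) + 1 :=
      ⟨⌊x⌋₊, Nat.floor_le hx0, Nat.lt_floor_add_one x⟩
    have hkK : k < K := by exact_mod_cast hk0.trans_lt h0
    have hτk : τ < k := by
      have h : (τ : ℝ) + 1 < (k : ℝ) + 1 := lt_of_le_of_lt hx hk1
      have h' : (τ : ℝ) < k := by linarith
      exact_mod_cast h'
    rw [interp_on d K k hkK hk0 hk1.le]
    have h1 := hd k hτk hkK.le
    have h2 := hd (k + 1) (by omega) hkK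
    have e : d k + (x - k) * (d (k + 1) - d k) = (1 - (x - k)) * d k + (x - k) * d (k + 1) := by ring
    rw [e]
    have hs0 : 0 ≤ x - k := by linarith
    have hs1 : 0 < 1 - (x - k) := by linarith
    have := mul_neg_of_pos_of_neg hs1 h1
    have := mul_nonpos_of_nonneg_of_nonpos hs0 h2.le
    linarith

/-- one crossing, inside the slot -/
lemma interp_cross (d : ℕ → ℝ) (K τ : ℕ) (hτ : τ + 1 ≤ K) (hd : ∀ k, k ≤ τ → 0 < d k)
    (hd' : ∀ k, τ < k → k ≤ K → d k < 0) :
    ∃ t : ℝ, (τ : ℝ) < t ∧ t < (τ : ℝ) + 1 ∧ interp d K t = 0 ∧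
      (∀ x, x < t → 0 < interp d K x) ∧ (∀ x, t < x → interp d K x < 0) := by
  have h1 := hd τ le_rfl
  have h2 := hd' (τ + 1) (by omega) hτ
  have hD : 0 < d τ - d (τ + 1) := by linarith
  refine ⟨τ + d τ / (d τ - d (τ + 1)), ?_, ?_, ?_, ?_, ?_⟩
  · have := div_pos h1 hD
    linarith
  · have : d τ / (d τ - d (τ + 1)) < 1 := by
      rw [div_lt_one hD]
      linarith
    linarith
  · have hs0 : 0 < d τ / (d τ - d (τ + 1)) := div_pos h1 hD
    have hs1 : d τ / (d τ - d (τ + 1)) < 1 := by
      rw [div_lt_one hD]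
      linarith
    rw [interp_on d K τ hτ (by linarith) (by linarith)]
    field_simp
    ring
  · intro x hx
    rcases le_or_gt x τ with h | h
    · exact interp_pos_left d K τ hτ hd h
    · have hs1 : d τ / (d τ - d (τ + 1)) < 1 := by
        rw [div_lt_one hD]
        linarith
      rw [interp_on d K τ hτ h.le (by linarith)]
      have : (x - τ) < d τ / (d τ - d (τ + 1)) := by linarith
      rw [lt_div_iff₀ hD] at this
      linarith
  · intro x hx
    rcases le_or_gt ((τ : ℝ) + 1) x with h | h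
    · exact interp_neg_right d K τ hτ hd' h
    · have hs0 : 0 < d τ / (d τ - d (τ + 1)) := div_pos h1 hD
      rw [interp_on d K τ hτ (by linarith) h.le]
      have : d τ / (d τ - d (τ + 1)) < (x - τ) := by linarith
      rw [div_lt_iff₀ hD] at this
      linarith

end Pool.Agent.W_MP_be22fd_co
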