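import Pool.Agent.W_MP_be22fd_co.Defs
import Pool.Agent.W_MP_be22fd_co.Interp
import Pool.Agent.W_MP_be22fd_co.Heights
import Pool.Agent.W_MP_be22fd_co.Generic

/-!
The model arrangement: two gadgets and some extra lines.
-/

namespace Pool.Agent.W_MP_be22fd_co

open Kind

abbrev Line (m : ℕ) : Type := Kind × Fin m

abbrev Idx (m e : ℕ) : Type := (Line m × Bool) ⊕ Fin e

def hk (m : ℕ) (p : Line m) (k : ℕ) : ℤ := hgt m p.1 p.2 k

def sl {m : ℕ} (p q : Line m) : ℕ := slot p.1 p.2 q.1 q.2

def ht (m e : ℕ) : Idx m e → ℕ → ℤ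
  | Sum.inl (p, false), k => hk m p k
  | Sum.inl (p, true), k => if k ≤ 4 * m then hk m p k - (12 * (m : ℤ) + 9)
      else hk m p k + (12 * (m : ℤ) + 9)
  | Sum.inr r, k => if k ≤ 4 * m then -(24 * (m : ℤ) + 18 + (r : ℕ))
      else 24 * (m : ℤ) + 18 + (r : ℕ)

lemma ht_zero_ne {m e : ℕ} (i j : Idx m e) (h : i ≠ j) : ht m e i 0 ≠ ht m e j 0 := by
  rcases i with ⟨⟨p, a⟩, c⟩ | r <;> rcases j with ⟨⟨q, b⟩, c'⟩ | r'
  · have h1 := hgt_bound m p a 0 a.2 (by omega)
    have h2 := hgt_bound m q b 0 b.2 (by omega)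
    by_cases hcc : c = c'
    · subst hcc
      have hne : (p, (a : ℕ)) ≠ (q, (b : ℕ)) := by
        intro hh
        apply h
        simp only [Prod.mk.injEq] at hh
        obtain ⟨rfl, hab⟩ := hh
        have : a = b := Fin.ext hab
        subst this
        rfl
      have := hgt_zero_ne m p q a b a.2 b.2 hne
      cases c <;> simp only [ht, hk, Nat.zero_le, if_true] <;> omega
    · cases c <;> cases c' <;> simp only [ht, hk, Nat.zero_le, if_true] <;>
        first | exact absurd rfl hcc | omega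
  · have h1 := hgt_bound m p a 0 a.2 (by omega)
    cases c <;> simp only [ht, hk, Nat.zero_le, if_true] <;> omega
  · have h1 := hgt_bound m q b 0 b.2 (by omega)
    cases c' <;> simp only [ht, hk, Nat.zero_le, if_true] <;> omega
  · have hne : (r : ℕ) ≠ (r' : ℕ) := fun hh => h (by rw [Fin.ext hh])
    simp only [ht, Nat.zero_le, if_true]
    omega

/-- every pair of lines, the first of which is above the second one initially, has a slot;
inside one gadget it is given by `sl`. -/
lemma ht_slot {m e : ℕ} (i j : Idx m e) (h : ht m e j 0 < ht m e i 0) :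
    ∃ τ, Slot (ht m e i) (ht m e j) (4 * m + 1) τ ∧
      (∀ p q c, i = Sum.inl (p, c) → j = Sum.inl (q, c) → τ = sl p q) := by
  rcases i with ⟨⟨p, a⟩, c⟩ | r <;> rcases j with ⟨⟨q, b⟩, c'⟩ | r'
  · by_cases hcc : c = c'
    · subst hcc
      refine ⟨slot p a q b, ?_, ?_⟩
      · have hh : hgt m q b 0 < hgt m p a 0 := by
          cases c <;> simp only [ht, hk, Nat.zero_le, if_true] at h <;> omega
        obtain ⟨h1, h2, h3⟩ := slot_spec m p q a b a.2 b.2 hh
        refine ⟨h1, fun k hk' => ?_, fun k hk' hk'' => ?_⟩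
        · have := h2 k hk'
          cases c <;> simp only [ht, hk]
          · exact this
          · split_ifs <;> omega
        · have := h3 k hk' hk''
          cases c <;> simp only [ht, hk]
          · exact this
          · split_ifs <;> omega
      · intro p' q' c' hp hq
        simp only [Sum.inl.injEq, Prod.mk.injEq] at hp hq
        obtain ⟨rfl, rfl⟩ := hp
        obtain ⟨rfl, -⟩ := hq
        rfl
    · refine ⟨4 * m, ⟨le_rfl, fun k hk' => ?_, fun k hk' hk'' => ?_⟩, ?_⟩
      · have h1 := hgt_bound m p a k a.2 (by omega)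
        have h2 := hgt_bound m q b k b.2 (by omega)
        have h3 := hgt_bound m p a 0 a.2 (by omega)
        have h4 := hgt_bound m q b 0 b.2 (by omega)
        cases c <;> cases c' <;> simp only [ht, hk, Nat.zero_le, if_true] at h ⊢
        · exact absurd rfl hcc
        · rw [if_pos hk']; omega
        · omega
        · exact absurd rfl hcc
      · have h1 := hgt_bound m p a k a.2 (by omega)
        have h2 := hgt_bound m q b k b.2 (by omega)
        have h3 := hgt_bound m p a 0 a.2 (by omega)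
        have h4 := hgt_bound m q b 0 b.2 (by omega)
        cases c <;> cases c' <;> simp only [ht, hk, Nat.zero_le, if_true] at h ⊢
        · exact absurd rfl hcc
        · rw [if_neg (by omega)]; omega
        · omega
        · exact absurd rfl hcc
      · intro p' q' c'' hp hq
        simp only [Sum.inl.injEq, Prod.mk.injEq] at hp hq
        exact absurd (hp.2.trans hq.2.symm) hcc
  · refine ⟨4 * m, ⟨le_rfl, fun k hk' => ?_, fun k hk' hk'' => ?_⟩, ?_⟩
    · have h1 := hgt_bound m p a k a.2 (by omega)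
      cases c <;> simp only [ht, hk] <;> split_ifs <;> omega
    · have h1 := hgt_bound m p a k a.2 (by omega)
      cases c <;> simp only [ht, hk] <;> split_ifs <;> omega
    · intro p' q' c'' hp hq
      exact absurd hq (by simp)
  · exfalso
    have h1 := hgt_bound m q b 0 b.2 (by omega)
    cases c' <;> simp only [ht, hk, Nat.zero_le, if_true] at h <;> omega
  · refine ⟨4 * m, ⟨le_rfl, fun k hk' => ?_, fun k hk' hk'' => ?_⟩, ?_⟩
    · simp only [ht, Nat.zero_le, if_true] at h ⊢
      split_ifs <;> omega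
    · simp only [ht, Nat.zero_le, if_true] at h ⊢
      split_ifs <;> omega
    · intro p' q' c'' hp hq
      exact absurd hq (by simp)

/-- the model curves with vertical shifts `s` -/
noncomputable def mod (m e : ℕ) (s : Idx m e → ℝ) (i : Idx m e) : ℝ → ℝ :=
  interp (fun k => (ht m e i k : ℝ) + s i) (4 * m + 1)

lemma mod_cross {m e : ℕ} (s : Idx m e → ℝ) (hs : ∀ i, s i ∈ Set.Ioo (0 : ℝ) 1)
    (i j : Idx m e) (h : ht m e j 0 < ht m e i 0) :
    ∃ (t : ℝ) (τ : ℕ), (τ : ℝ) < t ∧ t < (τ : ℝ) + 1 ∧ mod m e s i t = mod m e s j t ∧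
      (∀ x, x < t → mod m e s j x < mod m e s i x) ∧
      (∀ x, t < x → mod m e s i x < mod m e s j x) ∧
      (∀ p q c, i = Sum.inl (p, c) → j = Sum.inl (q, c) → τ = sl p q) := by
  obtain ⟨τ, ⟨h1, h2, h3⟩, h4⟩ := ht_slot i j h
  obtain ⟨hsi0, hsi1⟩ := hs i
  obtain ⟨hsj0, hsj1⟩ := hs j
  obtain ⟨t, ht0, ht1, hte, htl, htr⟩ := interp_cross
    (fun k => ((ht m e i k : ℝ) + s i) - ((ht m e j k : ℝ) + s j)) (4 * m + 1) τ h1
    (fun k hk' => by
      have := h2 k hk'
      have h' : (ht m e j k : ℝ) + 1 ≤ (ht m e i k : ℝ) := by exact_mod_cast this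
      show 0 < ((ht m e i k : ℝ) + s i) - ((ht m e j k : ℝ) + s j)
      linarith)
    (fun k hk' hk'' => by
      have := h3 k hk' hk''
      have h' : (ht m e i k : ℝ) + 1 ≤ (ht m e j k : ℝ) := by exact_mod_cast this
      show ((ht m e i k : ℝ) + s i) - ((ht m e j k : ℝ) + s j) < 0
      linarith)
  rw [← interp_sub] at hte
  refine ⟨t, τ, ht0, ht1, ?_, ?_, ?_, h4⟩
  · simp only [mod]
    linarith
  · intro x hx
    have := htl x hx
    rw [← interp_sub] at this
    simp only [mod]
    linarith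
  · intro x hx
    have := htr x hx
    rw [← interp_sub] at this
    simp only [mod]
    linarith

lemma mod_isArrangement {m e : ℕ} (s : Idx m e → ℝ) (hs : ∀ i, s i ∈ Set.Ioo (0 : ℝ) 1) :
    IsArrangement (mod m e s) := by
  refine ⟨fun i => continuous_interp _ _, fun i j hij => ?_⟩
  rcases lt_or_gt_of_ne (ht_zero_ne i j hij) with h | h
  · obtain ⟨t, τ, -, -, he, hl, hr, -⟩ := mod_cross s hs j i h
    exact ⟨t, he.symm, Or.inl ⟨hl, hr⟩⟩
  · obtain ⟨t, τ, -, -, he, hl, hr, -⟩ := mod_cross s hs i j h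
    exact ⟨t, he, Or.inr ⟨hl, hr⟩⟩

lemma exists_model (m e : ℕ) : ∃ s : Idx m e → ℝ, (∀ i, s i ∈ Set.Ioo (0 : ℝ) 1) ∧
    IsArrangement (mod m e s) ∧ IsSimple (mod m e s) := by
  obtain ⟨s, hs, h⟩ := exists_generic
    (fun i : Idx m e => interp (fun k => (ht m e i k : ℝ)) (4 * m + 1)) (by
    intro s hs i j hij
    obtain ⟨t, -, hcr⟩ := (mod_isArrangement s hs).cross i j hij
    refine ⟨t, fun y hy => ?_⟩
    have hy' : mod m e s i y = mod m e s j y := by
      simp only [mod, interp_add_const]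
      exact hy
    by_contra hne
    rcases lt_or_gt_of_ne hne with hlt | hgt
    · rcases hcr with hcr | hcr
      · exact absurd hy' (hcr.1 y hlt).ne
      · exact absurd hy' (hcr.1 y hlt).ne'
    · rcases hcr with hcr | hcr
      · exact absurd hy' (hcr.2 y hgt).ne'
      · exact absurd hy' (hcr.2 y hgt).ne)
  refine ⟨s, hs, mod_isArrangement s hs, ?_⟩
  intro i j k hij hjk hik x hx
  simp only [mod, interp_add_const] at hx
  exact h i j k hij hjk hik x hx

end Pool.Agent.W_MP_be22fd_co
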